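import Mathlib

open Complex Metric Set
open scoped ComplexConjugate

namespace Pool.Agent.Lib.MP_a50f86_an

/-- A planar conformal harmonic map of the disc whose differential at the origin is a positive
multiple of the identity is holomorphic. -/
theorem holo_of_conformal_harmonic (F : ℂ → ℂ) (r : ℝ) (hr : 0 < r)
    (hF : ContDiffOn ℝ 2 F (ball (0 : ℂ) 1))
    (hconf : ∀ z ∈ ball (0 : ℂ) 1,
      ‖fderiv ℝ F z 1‖ = ‖fderiv ℝ F z I‖ ∧
        (fderiv ℝ F z 1).re * (fderiv ℝ F z I).re + (fderiv ℝ F z 1).im * (fderiv ℝ F z I).im = 0)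
    (hharm : ∀ z ∈ ball (0 : ℂ) 1,
      fderiv ℝ (fun w => fderiv ℝ F w 1) z 1 + fderiv ℝ (fun w => fderiv ℝ F w I) z I = 0)
    (h0 : fderiv ℝ F 0 1 = r) (h1 : fderiv ℝ F 0 I = r * I) :
    ∀ z ∈ ball (0 : ℂ) 1, fderiv ℝ F z I = I * fderiv ℝ F z 1 := by
  classical
  have hopen : IsOpen (ball (0 : ℂ) 1) := isOpen_ball
  -- the two first derivatives are differentiable
  have hC1 : ContDiffOn ℝ 1 (fderiv ℝ F) (ball (0 : ℂ) 1) :=
    hF.fderiv_of_isOpen hopen (by norm_num)
  have hD : ∀ z ∈ ball (0 : ℂ) 1, DifferentiableAt ℝ (fderiv ℝ F) z := fun z hz =>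
    (hC1.differentiableOn (by norm_num)).differentiableAt (hopen.mem_nhds hz)
  have hdv : ∀ z ∈ ball (0 : ℂ) 1, ∀ v : ℂ, DifferentiableAt ℝ (fun w => fderiv ℝ F w v) z :=
    fun z hz v => (hD z hz).clm_apply (differentiableAt_const v)
  have hfd : ∀ z ∈ ball (0 : ℂ) 1, ∀ v w : ℂ,
      fderiv ℝ (fun y => fderiv ℝ F y v) z w = fderiv ℝ (fderiv ℝ F) z w v := by
    intro z hz v w
    rw [fderiv_clm_apply (hD z hz) (differentiableAt_const v)]
    simp
  have hsymm : ∀ z ∈ ball (0 : ℂ) 1, ∀ v w : ℂ,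
      fderiv ℝ (fderiv ℝ F) z v w = fderiv ℝ (fderiv ℝ F) z w v := by
    intro z hz v w
    have h2 : ContDiffAt ℝ 2 F z := hF.contDiffAt (hopen.mem_nhds hz)
    exact h2.isSymmSndFDerivAt (by simp) v w
  -- the two holomorphic functions
  set A : ℂ → ℂ := fun z => fderiv ℝ F z 1 - I * fderiv ℝ F z I with hA
  set B : ℂ → ℂ := fun z => conj (fderiv ℝ F z 1 + I * fderiv ℝ F z I) with hB
  have hAd : DifferentiableOn ℂ A (ball (0 : ℂ) 1) := by
    intro z hz
    apply DifferentiableAt.differentiableWithinAt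
    rw [differentiableAt_complex_iff_differentiableAt_real]
    have e1 := hdv z hz 1
    have e2 := hdv z hz I
    have e3 : DifferentiableAt ℝ (fun w => I * fderiv ℝ F w I) z := e2.const_mul I
    refine ⟨e1.sub e3, ?_⟩
    have hf : fderiv ℝ A z = fderiv ℝ (fun w => fderiv ℝ F w 1) z
        - I • fderiv ℝ (fun w => fderiv ℝ F w I) z := by
      rw [hA]
      rw [fderiv_fun_sub e1 e3]
      congr 1
      exact fderiv_const_mul e2 I
    rw [hf]
    have hh := hharm z hz
    have s1 := hfd z hz 1 I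
    have s2 := hfd z hz I 1
    have s3 := hsymm z hz 1 I
    simp only [sub_apply, smul_apply, smul_eq_mul]
    rw [s1, s2, s3]
    have hh' : fderiv ℝ (fun w => fderiv ℝ F w 1) z 1 = - fderiv ℝ (fun w => fderiv ℝ F w I) z I := by
      linear_combination hh
    rw [hh']
    linear_combination (fderiv ℝ (fderiv ℝ F) z I 1) * I_mul_I
  have hBd : DifferentiableOn ℂ B (ball (0 : ℂ) 1) := by
    intro z hz
    apply DifferentiableAt.differentiableWithinAt
    rw [differentiableAt_complex_iff_differentiableAt_real]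
    have e1 := hdv z hz 1
    have e2 := hdv z hz I
    have e3 : DifferentiableAt ℝ (fun w => I * fderiv ℝ F w I) z := e2.const_mul I
    have e4 : DifferentiableAt ℝ (fun w => fderiv ℝ F w 1 + I * fderiv ℝ F w I) z := e1.add e3
    have hBe : B = fun z => conjCLE (fderiv ℝ F z 1 + I * fderiv ℝ F z I) := by
      funext w; simp [hB]
    have hf : fderiv ℝ B z = (conjCLE : ℂ →L[ℝ] ℂ).comp (fderiv ℝ (fun w => fderiv ℝ F w 1) z
        + I • fderiv ℝ (fun w => fderiv ℝ F w I) z) := by
      rw [hBe]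
      rw [show (fun z => conjCLE (fderiv ℝ F z 1 + I * fderiv ℝ F z I)) =
        conjCLE ∘ (fun z => (fderiv ℝ F z 1 + I * fderiv ℝ F z I)) from rfl]
      rw [ContinuousLinearEquiv.comp_fderiv]
      congr 1
      rw [fderiv_fun_add e1 e3]
      congr 1
      exact fderiv_const_mul e2 I
    refine ⟨?_, ?_⟩
    · rw [hBe]
      exact (conjCLE.differentiableAt).comp z e4
    rw [hf]
    have hh := hharm z hz
    have s1 := hfd z hz 1 I
    have s2 := hfd z hz I 1
    have s3 := hsymm z hz 1 I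
    simp only [ContinuousLinearMap.comp_apply, add_apply, smul_apply, smul_eq_mul]
    rw [s1, s2, s3]
    have hh' : fderiv ℝ (fun w => fderiv ℝ F w 1) z 1 = - fderiv ℝ (fun w => fderiv ℝ F w I) z I := by
      linear_combination hh
    rw [hh']
    simp only [ContinuousLinearEquiv.coe_coe, conjCLE_apply, map_add, map_mul, map_neg, conj_I]
    linear_combination (conj (fderiv ℝ (fderiv ℝ F) z I 1)) * I_mul_I
  have hprod : ∀ z ∈ ball (0 : ℂ) 1, A z * B z = 0 := by
    intro z hz
    obtain ⟨c1, c2⟩ := hconf z hz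
    have c1' : (fderiv ℝ F z 1).re ^ 2 + (fderiv ℝ F z 1).im ^ 2 =
        (fderiv ℝ F z I).re ^ 2 + (fderiv ℝ F z I).im ^ 2 := by
      have := congrArg (fun t => t ^ 2) c1
      simp only [← normSq_eq_norm_sq, normSq_apply] at this
      nlinarith [this]
    simp only [hA, hB]
    apply Complex.ext
    · simp
      nlinarith [c1', c2]
    · simp
      nlinarith [c1', c2]
  have hAn := (hAd.analyticOnNhd hopen)
  have hBn := (hBd.analyticOnNhd hopen)
  have hpre : IsPreconnected (ball (0 : ℂ) 1) := (convex_ball (0 : ℂ) 1).isPreconnected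
  rcases hAn.eq_zero_or_eq_zero_of_mul_eq_zero hBn hprod hpre with h | h
  · exfalso
    have := h 0 (by simp)
    simp only [hA, h0, h1] at this
    have h2 : (r : ℂ) - I * (r * I) = 2 * r := by
      linear_combination (-(r : ℂ)) * I_mul_I
    rw [h2] at this
    have : (r : ℂ) = 0 := by simpa using this
    exact hr.ne' (by exact_mod_cast this)
  · intro z hz
    have := h z hz
    simp only [hB] at this
    have h3 : fderiv ℝ F z 1 + I * fderiv ℝ F z I = 0 :=
      (map_eq_zero (starRingEnd ℂ)).1 this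
    linear_combination (-I) * h3 + (fderiv ℝ F z I) * I_mul_I

end Pool.Agent.Lib.MP_a50f86_an
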