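import Pool.Agent.Lib.MP_a50f86_an.Domain
import Pool.Agent.Lib.MP_a50f86_an.Holo

open Complex Metric Set
open scoped ComplexConjugate

namespace Pool.Agent.Lib.MP_a50f86_an

/-- The three-dimensional Euclidean space. -/
abbrev E3 := EuclideanSpace ℝ (Fin 3)

/-- Conformal harmonic discs in the domain `Om`. -/
def CH (f : ℂ → E3) : Prop :=
  ContDiffOn ℝ 2 f (Metric.ball (0 : ℂ) 1) ∧
    (∀ z ∈ Metric.ball (0 : ℂ) 1, f z ∈ Om) ∧
    (∀ z ∈ Metric.ball (0 : ℂ) 1,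
      ‖fderiv ℝ f z (1 : ℂ)‖ = ‖fderiv ℝ f z Complex.I‖ ∧
      inner ℝ (fderiv ℝ f z (1 : ℂ)) (fderiv ℝ f z Complex.I) = 0) ∧
    (∀ z ∈ Metric.ball (0 : ℂ) 1,
      fderiv ℝ (fun w => fderiv ℝ f w (1 : ℂ)) z (1 : ℂ) +
        fderiv ℝ (fun w => fderiv ℝ f w Complex.I) z Complex.I = 0)

/-- the frame -/
noncomputable def e0 : E3 := EuclideanSpace.single 0 1
/-- the frame -/
noncomputable def e1 : E3 := EuclideanSpace.single 1 1

/-- Extremal discs at the origin for the frame `(e0, e1)`. -/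
def IsExt (f : ℂ → E3) : Prop :=
  ∃ r : ℝ, 0 < r ∧ CH f ∧ f 0 = 0 ∧ fderiv ℝ f 0 (1 : ℂ) = r • e0 ∧
    fderiv ℝ f 0 Complex.I = r • e1 ∧
    ∀ g : ℂ → E3, ∀ s : ℝ, 0 < s → CH g → g 0 = 0 → fderiv ℝ g 0 (1 : ℂ) = s • e0 →
      fderiv ℝ g 0 Complex.I = s • e1 → s ≤ r

/-- The reflection in the third coordinate. -/
noncomputable def sig : E3 ≃ₗᵢ[ℝ] E3 :=
  LinearIsometryEquiv.piLpCongrRight 2
    (fun i : Fin 3 => if i = 2 then LinearIsometryEquiv.neg ℝ else LinearIsometryEquiv.refl ℝ ℝ)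

theorem sig_apply (x : E3) (i : Fin 3) : sig x i = if i = 2 then - x i else x i := by
  unfold sig
  rw [LinearIsometryEquiv.piLpCongrRight_apply]
  by_cases h : i = 2
  · simp [h]
  · simp [h]

theorem sig_Om {x : E3} (hx : x ∈ Om) : sig x ∈ Om := by
  have h : rho x < 0 := hx
  show rho (sig x) < 0
  have : rho (sig x) = rho x := by
    simp only [rho, sig_apply]
    simp
    ring
  rw [this]; exact h

theorem sig_e0 : sig e0 = e0 := by
  ext i
  rw [sig_apply]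
  fin_cases i <;> simp [e0]

theorem sig_e1 : sig e1 = e1 := by
  ext i
  rw [sig_apply]
  fin_cases i <;> simp [e1]

theorem fderiv_sig (f : ℂ → E3) (z v : ℂ) :
    fderiv ℝ (fun w => sig (f w)) z v = sig (fderiv ℝ f z v) := by
  have h : fderiv ℝ (sig ∘ f) z = (sig : E3 →L[ℝ] E3).comp (fderiv ℝ f z) := sig.comp_fderiv
  have h2 : fderiv ℝ (fun w => sig (f w)) z = (sig : E3 →L[ℝ] E3).comp (fderiv ℝ f z) := h
  rw [h2]
  rfl

theorem CH_sig {f : ℂ → E3} (hf : CH f) : CH (fun w => sig (f w)) := by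
  obtain ⟨h1, h2, h3, h4⟩ := hf
  refine ⟨?_, fun z hz => sig_Om (h2 z hz), fun z hz => ?_, fun z hz => ?_⟩
  · exact sig.contDiff.comp_contDiffOn h1
  · rw [fderiv_sig, fderiv_sig, sig.norm_map, sig.norm_map, sig.inner_map_map]
    exact h3 z hz
  · simp only [fderiv_sig]
    rw [← map_add, h4 z hz, map_zero]

theorem isExt_sig {f : ℂ → E3} (hf : IsExt f) : IsExt (fun w => sig (f w)) := by
  obtain ⟨r, hr, hc, h0, h1, h2, hm⟩ := hf
  refine ⟨r, hr, CH_sig hc, ?_, ?_, ?_, hm⟩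
  · simp only [h0, map_zero]
  · rw [fderiv_sig, h1, map_smul, sig_e0]
  · rw [fderiv_sig, h2, map_smul, sig_e1]

theorem CH_enn : CH enn :=
  ⟨contDiff_enn.contDiffOn, enn_mem_Om, fun z _ => enn_conf z, fun z _ => enn_harm z⟩

theorem enn_zero : enn 0 = 0 := by
  ext i
  fin_cases i <;> simp [enn, cub]

theorem fderiv_enn_zero_one : fderiv ℝ enn 0 1 = (13 / 12 : ℝ) • e0 := by
  rw [fderiv_enn_one]
  ext i
  fin_cases i <;> simp [enn1, cub, e0]

theorem fderiv_enn_zero_I : fderiv ℝ enn 0 I = (13 / 12 : ℝ) • e1 := by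
  rw [fderiv_enn_I]
  ext i
  fin_cases i <;> simp [enn2, cub, e1]

/-- projection to the complex plane -/
noncomputable def proj : E3 →L[ℝ] ℂ :=
  (EuclideanSpace.proj (𝕜 := ℝ) (0 : Fin 3)).smulRight (1 : ℂ)
    + (EuclideanSpace.proj (𝕜 := ℝ) (1 : Fin 3)).smulRight I

theorem proj_re (x : E3) : (proj x).re = x 0 := by simp [proj]
theorem proj_im (x : E3) : (proj x).im = x 1 := by simp [proj]

/-- the polynomial estimate used with the Schwarz lemma -/
theorem psi_bound {w : ℂ} (hw : w.re ^ 4 + w.im ^ 4 ≤ 1) : ‖w + w ^ 5 / 16‖ ^ 2 ≤ 1.17 := by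
  obtain ⟨S, hS⟩ : ∃ S : ℝ, S = w.re ^ 2 + w.im ^ 2 := ⟨_, rfl⟩
  obtain ⟨Q, hQ⟩ : ∃ Q : ℝ, Q = w.re ^ 4 + w.im ^ 4 := ⟨_, rfl⟩
  have hS0 : 0 ≤ S := by rw [hS]; positivity
  have hQ1 : Q ≤ 1 := hQ ▸ hw
  have hSQ : S ^ 2 ≤ 2 * Q := by
    rw [hS, hQ]
    nlinarith [sq_nonneg (w.re ^ 2 - w.im ^ 2)]
  have key : ‖w + w ^ 5 / 16‖ ^ 2 = S * (1 + (4 * Q - 3 * S ^ 2) / 8 + S ^ 4 / 256) := by
    rw [← normSq_eq_norm_sq, normSq_apply, hS, hQ]
    have hre : (w + w ^ 5 / 16).re = w.re + (w.re ^ 5 - 10 * w.re ^ 3 * w.im ^ 2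
        + 5 * w.re * w.im ^ 4) / 16 := by
      have : w ^ 5 / 16 = w ^ 5 * ((1 / 16 : ℝ) : ℂ) := by push_cast; ring
      rw [this, add_re, re_mul_ofReal]
      have h5 : (w ^ 5).re = w.re ^ 5 - 10 * w.re ^ 3 * w.im ^ 2 + 5 * w.re * w.im ^ 4 := by
        simp only [pow_succ, pow_zero, one_mul, mul_re, mul_im]
        ring
      rw [h5]; ring
    have him : (w + w ^ 5 / 16).im = w.im + (5 * w.re ^ 4 * w.im - 10 * w.re ^ 2 * w.im ^ 3
        + w.im ^ 5) / 16 := by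
      have : w ^ 5 / 16 = w ^ 5 * ((1 / 16 : ℝ) : ℂ) := by push_cast; ring
      rw [this, add_im, im_mul_ofReal]
      have h5 : (w ^ 5).im = 5 * w.re ^ 4 * w.im - 10 * w.re ^ 2 * w.im ^ 3 + w.im ^ 5 := by
        simp only [pow_succ, pow_zero, one_mul, mul_re, mul_im]
        ring
      rw [h5]; ring
    rw [hre, him]
    ring
  rw [key]
  have hS2 : S ^ 2 ≤ 2 := by linarith
  have hb : S * (1 + (4 * Q - 3 * S ^ 2) / 8 + S ^ 4 / 256)
      ≤ S * (1 + (4 - 3 * S ^ 2) / 8 + S ^ 4 / 256) := by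
    apply mul_le_mul_of_nonneg_left _ hS0
    linarith
  refine hb.trans ?_
  have hSle : S ≤ 3 / 2 := by nlinarith
  nlinarith [mul_nonneg hS0 (sub_nonneg.2 hSle), sq_nonneg (S - 1.17), sq_nonneg (S ^ 2 - 1.37),
    mul_nonneg hS0 (sq_nonneg (S - 1.17)), mul_nonneg hS0 (sub_nonneg.2 hS2),
    mul_nonneg (mul_nonneg hS0 hS0) (sub_nonneg.2 hS2), mul_nonneg hS0 (sq_nonneg (S ^ 2 - 1.37))]

/-- An extremal disc for the frame `(e0, e1)` at the origin which is fixed by the reflection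
cannot exist. -/
theorem no_unique_ext (f : ℂ → E3) (hf : IsExt f)
    (huniq : ∀ h : ℂ → E3, IsExt h → Set.EqOn h f (Metric.ball (0 : ℂ) 1)) : False := by
  have hplanar : ∀ z ∈ Metric.ball (0 : ℂ) 1, f z 2 = 0 := by
    intro z hz
    have h := huniq _ (isExt_sig hf) hz
    have h2 : sig (f z) 2 = f z 2 := by
      have := congrArg (fun x : E3 => x 2) h
      exact this
    rw [sig_apply] at h2
    simp only [if_true] at h2
    linarith
  obtain ⟨r, hr, ⟨hC, hmem, hconf, hharm⟩, hf0, hfx, hfy, hmax⟩ := hf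
  have hr1 : 13 / 12 ≤ r :=
    hmax enn (13 / 12) (by norm_num) CH_enn enn_zero fderiv_enn_zero_one fderiv_enn_zero_I
  -- the planar map
  set F : ℂ → ℂ := fun z => proj (f z) with hF
  have hopen : IsOpen (Metric.ball (0 : ℂ) 1) := Metric.isOpen_ball
  have hdiff : ∀ z ∈ Metric.ball (0 : ℂ) 1, DifferentiableAt ℝ f z := fun z hz =>
    (hC.differentiableOn (by norm_num)).differentiableAt (hopen.mem_nhds hz)
  have hFd : ∀ z ∈ Metric.ball (0 : ℂ) 1, ∀ v : ℂ,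
      fderiv ℝ F z v = proj (fderiv ℝ f z v) := by
    intro z hz v
    have h := (proj.hasFDerivAt (x := f z)).comp z (hdiff z hz).hasFDerivAt
    have h2 : HasFDerivAt F (proj.comp (fderiv ℝ f z)) z := h
    rw [h2.fderiv]
    rfl
  have hC1 : ContDiffOn ℝ 1 (fderiv ℝ f) (Metric.ball (0 : ℂ) 1) :=
    hC.fderiv_of_isOpen hopen (by norm_num)
  have hD : ∀ z ∈ Metric.ball (0 : ℂ) 1, DifferentiableAt ℝ (fderiv ℝ f) z := fun z hz =>
    (hC1.differentiableOn (by norm_num)).differentiableAt (hopen.mem_nhds hz)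
  have hdv : ∀ z ∈ Metric.ball (0 : ℂ) 1, ∀ v : ℂ, DifferentiableAt ℝ (fun w => fderiv ℝ f w v) z :=
    fun z hz v => (hD z hz).clm_apply (differentiableAt_const v)
  have hFdd : ∀ z ∈ Metric.ball (0 : ℂ) 1, ∀ v w : ℂ,
      fderiv ℝ (fun y => fderiv ℝ F y v) z w = proj (fderiv ℝ (fun y => fderiv ℝ f y v) z w) := by
    intro z hz v w
    have he : (fun y => fderiv ℝ F y v) =ᶠ[nhds z] (fun y => proj (fderiv ℝ f y v)) := by
      filter_upwards [hopen.mem_nhds hz] with y hy using hFd y hy v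
    rw [he.fderiv_eq]
    have h := (proj.hasFDerivAt (x := fderiv ℝ f z v)).comp z (hdv z hz v).hasFDerivAt
    have h2 : HasFDerivAt (fun y => proj (fderiv ℝ f y v))
      (proj.comp (fderiv ℝ (fun y => fderiv ℝ f y v) z)) z := h
    rw [h2.fderiv]
    rfl
  -- third component of the derivative vanishes
  have hthird : ∀ z ∈ Metric.ball (0 : ℂ) 1, ∀ v : ℂ, (fderiv ℝ f z v) 2 = 0 := by
    intro z hz v
    rw [fderiv_comp_apply (hdiff z hz)]
    have he : (fun w => f w 2) =ᶠ[nhds z] (fun _ => (0 : ℝ)) := by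
      filter_upwards [hopen.mem_nhds hz] with y hy using hplanar y hy
    rw [he.fderiv_eq]
    simp
  have hFC : ContDiffOn ℝ 2 F (Metric.ball (0 : ℂ) 1) := proj.contDiff.comp_contDiffOn hC
  have hFconf : ∀ z ∈ Metric.ball (0 : ℂ) 1,
      ‖fderiv ℝ F z 1‖ = ‖fderiv ℝ F z I‖ ∧
        (fderiv ℝ F z 1).re * (fderiv ℝ F z I).re
          + (fderiv ℝ F z 1).im * (fderiv ℝ F z I).im = 0 := by
    intro z hz
    obtain ⟨c1, c2⟩ := hconf z hz
    have t1 := hthird z hz 1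
    have t2 := hthird z hz I
    rw [hFd z hz, hFd z hz]
    constructor
    · have n1 : ‖fderiv ℝ f z 1‖ ^ 2 = ‖fderiv ℝ f z I‖ ^ 2 := by rw [c1]
      rw [EuclideanSpace.norm_sq_eq, EuclideanSpace.norm_sq_eq] at n1
      simp only [Fin.sum_univ_three, t1, t2, Real.norm_eq_abs, sq_abs] at n1
      have n2 : ‖proj (fderiv ℝ f z 1)‖ ^ 2 = ‖proj (fderiv ℝ f z I)‖ ^ 2 := by
        rw [← normSq_eq_norm_sq, ← normSq_eq_norm_sq, normSq_apply, normSq_apply]
        simp only [proj_re, proj_im]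
        nlinarith [n1]
      exact (sq_eq_sq₀ (norm_nonneg _) (norm_nonneg _)).1 n2
    · simp only [proj_re, proj_im]
      simp only [PiLp.inner_apply, Fin.sum_univ_three, t1, t2] at c2
      simp at c2
      linarith
  have hFharm : ∀ z ∈ Metric.ball (0 : ℂ) 1,
      fderiv ℝ (fun w => fderiv ℝ F w 1) z 1 + fderiv ℝ (fun w => fderiv ℝ F w I) z I = 0 := by
    intro z hz
    rw [hFdd z hz, hFdd z hz, ← map_add, hharm z hz, map_zero]
  have h0mem : (0 : ℂ) ∈ Metric.ball (0 : ℂ) 1 := by simp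
  have hF1 : fderiv ℝ F 0 1 = r := by
    rw [hFd 0 h0mem, hfx]
    apply Complex.ext
    · rw [proj_re]; simp [e0]
    · rw [proj_im]; simp [e0]
  have hFI : fderiv ℝ F 0 I = r * I := by
    rw [hFd 0 h0mem, hfy]
    apply Complex.ext
    · rw [proj_re]; simp [e1]
    · rw [proj_im]; simp [e1]
  have hholo := holo_of_conformal_harmonic F r hr hFC hFconf hFharm hF1 hFI
  have hFdiffR : ∀ z ∈ Metric.ball (0 : ℂ) 1, DifferentiableAt ℝ F z := fun z hz =>
    (hFC.differentiableOn (by norm_num)).differentiableAt (hopen.mem_nhds hz)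
  have hFdiff : ∀ z ∈ Metric.ball (0 : ℂ) 1, DifferentiableAt ℂ F z := by
    intro z hz
    rw [differentiableAt_complex_iff_differentiableAt_real]
    exact ⟨hFdiffR z hz, by rw [hholo z hz]; rfl⟩
  have hFderiv : deriv F 0 = r := by
    rw [complexOfReal_deriv (hFdiffR 0 h0mem) (by rw [hholo 0 h0mem]; rfl), hF1]
  have hF0 : F 0 = 0 := by simp [hF, hf0]
  -- the Schwarz lemma for `psi ∘ F`
  set G : ℂ → ℂ := fun z => F z + F z ^ 5 / 16 with hG
  have hGd : DifferentiableOn ℂ G (Metric.ball (0 : ℂ) 1) := by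
    intro z hz
    exact ((hFdiff z hz).add (((hFdiff z hz).pow 5).div_const 16)).differentiableWithinAt
  have hG0 : G 0 = 0 := by simp [hG, hF0]
  have hGderiv : deriv G 0 = r := by
    have hd := (hFdiff 0 h0mem).hasDerivAt
    rw [hFderiv] at hd
    have h := hd.add ((hd.pow 5).div_const 16)
    have h' : HasDerivAt G _ 0 := h
    rw [h'.deriv, hF0]
    simp
  have hmaps : MapsTo G (Metric.ball (0 : ℂ) 1) (Metric.closedBall (G 0) (Real.sqrt 1.17)) := by
    intro z hz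
    rw [hG0, mem_closedBall_zero_iff]
    apply Real.le_sqrt_of_sq_le
    apply psi_bound
    have hm : rho (f z) < 0 := hmem z hz
    unfold rho at hm
    have hp := hplanar z hz
    rw [hp] at hm
    simp only [hF, proj_re, proj_im]
    linarith
  have hS := Complex.norm_deriv_le_div_of_mapsTo_ball hGd hmaps one_pos
  rw [hGderiv, div_one] at hS
  have hS2 : r ≤ Real.sqrt 1.17 := by
    have : ‖(r : ℂ)‖ = r := by simp [abs_of_pos hr]
    rwa [this] at hS
  have : (13 / 12 : ℝ) ≤ Real.sqrt 1.17 := hr1.trans hS2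
  have h2 : (13 / 12 : ℝ) ^ 2 ≤ 1.17 := by
    have := Real.sq_sqrt (show (0 : ℝ) ≤ 1.17 by norm_num)
    nlinarith [Real.sqrt_nonneg 1.17]
  norm_num at h2

end Pool.Agent.Lib.MP_a50f86_an
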