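import Pool.Agent.Lib.MP_a50f86_an.Enneper

open Complex Metric Set

namespace Pool.Agent.Lib.MP_a50f86_an

/-- defining function of the domain -/
noncomputable def rho (x : EuclideanSpace ℝ (Fin 3)) : ℝ := x 0 ^ 4 + x 1 ^ 4 + x 2 ^ 4 / 16 - 1

/-- the domain -/
def Om : Set (EuclideanSpace ℝ (Fin 3)) := {x | rho x < 0}

theorem contDiff_rho {n : WithTop ℕ∞} : ContDiff ℝ n rho := by
  have h : ∀ i : Fin 3, ContDiff ℝ n (fun x : EuclideanSpace ℝ (Fin 3) => x i) := fun i =>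
    (EuclideanSpace.proj (𝕜 := ℝ) i).contDiff
  unfold rho
  have h0 := (h 0).pow 4
  have h1 := (h 1).pow 4
  have h2 := ((h 2).pow 4).div_const 16
  exact ((h0.add h1).add h2).sub contDiff_const

theorem continuous_rho : Continuous rho := (contDiff_rho (n := 0)).continuous

theorem isOpen_Om : IsOpen Om := isOpen_lt continuous_rho continuous_const

theorem convex_Om : Convex ℝ Om := by
  have h4 : ConvexOn ℝ univ (fun t : ℝ => t ^ 4) := Even.convexOn_pow (by decide)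
  have hi : ∀ i : Fin 3, ConvexOn ℝ univ (fun x : EuclideanSpace ℝ (Fin 3) => x i ^ 4) := by
    intro i
    have := h4.comp_linearMap ((EuclideanSpace.proj (𝕜 := ℝ) i : EuclideanSpace ℝ (Fin 3) →L[ℝ] ℝ) :
      EuclideanSpace ℝ (Fin 3) →ₗ[ℝ] ℝ)
    simpa [Function.comp_def] using this
  have h2 : ConvexOn ℝ univ (fun x : EuclideanSpace ℝ (Fin 3) => (1 / 16 : ℝ) • x 2 ^ 4) :=
    (hi 2).smul (by norm_num)
  have hs := ((hi 0).add (hi 1)).add h2
  have hc := hs.convex_lt 1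
  have he : Om = {x : EuclideanSpace ℝ (Fin 3) | x ∈ univ ∧
      (((fun x : EuclideanSpace ℝ (Fin 3) => x 0 ^ 4)
        + fun x : EuclideanSpace ℝ (Fin 3) => x 1 ^ 4)
        + fun x : EuclideanSpace ℝ (Fin 3) => (1 / 16 : ℝ) • x 2 ^ 4) x < 1} := by
    refine Set.ext fun x => ?_
    constructor
    · intro h
      have h' : rho x < 0 := h
      refine ⟨mem_univ _, ?_⟩
      unfold rho at h'
      simp only [Pi.add_apply, smul_eq_mul]
      linarith
    · rintro ⟨-, h⟩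
      simp only [Pi.add_apply, smul_eq_mul] at h
      show rho x < 0
      unfold rho
      linarith
  rw [he]
  exact hc

theorem abs_le_two {x : EuclideanSpace ℝ (Fin 3)} (hx : x ∈ Om) (i : Fin 3) : |x i| ≤ 2 := by
  have hx' : x 0 ^ 4 + x 1 ^ 4 + x 2 ^ 4 / 16 < 1 := by
    have : rho x < 0 := hx
    unfold rho at this
    linarith
  have p0 : 0 ≤ x 0 ^ 4 := by positivity
  have p1 : 0 ≤ x 1 ^ 4 := by positivity
  have p2 : 0 ≤ x 2 ^ 4 := by positivity
  have hb : x i ^ 4 ≤ 2 ^ 4 := by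
    fin_cases i
    · simp only [Fin.zero_eta]; linarith
    · simp only [Fin.mk_one]; linarith
    · simp only [Fin.reduceFinMk]; linarith
  have : |x i| ^ 4 ≤ 2 ^ 4 := by
    rw [show |x i| ^ 4 = x i ^ 4 from by rw [← abs_pow]; exact abs_of_nonneg (by positivity)]
    exact hb
  exact le_of_pow_le_pow_left₀ (by norm_num) (by norm_num) this

theorem bounded_Om : Bornology.IsBounded Om := by
  rw [isBounded_iff_forall_norm_le]
  refine ⟨4, fun x hx => ?_⟩
  rw [EuclideanSpace.norm_eq]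
  have h0 := abs_le_two hx 0
  have h1 := abs_le_two hx 1
  have h2 := abs_le_two hx 2
  rw [show (4 : ℝ) = Real.sqrt 16 from by
    rw [show (16 : ℝ) = 4 ^ 2 by norm_num]; exact (Real.sqrt_sq (by norm_num)).symm]
  apply Real.sqrt_le_sqrt
  simp only [Fin.sum_univ_three, Real.norm_eq_abs]
  nlinarith [abs_nonneg (x 0), abs_nonneg (x 1), abs_nonneg (x 2)]

theorem fderiv_rho_self (x : EuclideanSpace ℝ (Fin 3)) :
    fderiv ℝ rho x x = 4 * (rho x + 1) := by
  have h : ∀ i : Fin 3, HasFDerivAt (fun x : EuclideanSpace ℝ (Fin 3) => x i)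
      (EuclideanSpace.proj (𝕜 := ℝ) i) x := fun i =>
    (EuclideanSpace.proj (𝕜 := ℝ) i).hasFDerivAt
  have h0 := (h 0).pow 4
  have h1 := (h 1).pow 4
  have h2 := ((h 2).pow 4).mul_const (1 / 16)
  have hh := ((h0.add h1).add h2).sub_const 1
  have he : rho = fun x : EuclideanSpace ℝ (Fin 3) => x 0 ^ 4 + x 1 ^ 4 + x 2 ^ 4 * (1 / 16) - 1 := by
    funext y
    unfold rho
    ring
  have hd : fderiv ℝ (fun x : EuclideanSpace ℝ (Fin 3) =>
      x 0 ^ 4 + x 1 ^ 4 + x 2 ^ 4 * (1 / 16) - 1) x = _ := HasFDerivAt.fderiv hh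
  rw [he, hd]
  simp
  ring

theorem smooth_Om : ∃ U : Set (EuclideanSpace ℝ (Fin 3)), ∃ ρ : EuclideanSpace ℝ (Fin 3) → ℝ,
    IsOpen U ∧ closure Om ⊆ U ∧ ContDiffOn ℝ ((⊤ : ℕ∞) : WithTop ℕ∞) ρ U ∧
      Om = {x | x ∈ U ∧ ρ x < 0} ∧ ∀ x ∈ frontier Om, fderiv ℝ ρ x ≠ 0 := by
  refine ⟨univ, rho, isOpen_univ, subset_univ _, contDiff_rho.contDiffOn, ?_, ?_⟩
  · ext x; simp [Om]
  · intro x hx h0
    have h1 : rho x = 0 := frontier_lt_subset_eq continuous_rho continuous_const hx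
    have h2 := fderiv_rho_self x
    rw [h0, h1] at h2
    norm_num at h2

theorem enn_mem_Om (z : ℂ) (hz : z ∈ ball (0 : ℂ) 1) : enn z ∈ Om := by
  have hz1 : z.re ^ 2 + z.im ^ 2 < 1 := by
    have : ‖z‖ < 1 := by simpa using hz
    have h2 : ‖z‖ ^ 2 < 1 := by nlinarith [norm_nonneg z]
    rw [← normSq_eq_norm_sq, normSq_apply] at h2
    nlinarith
  show rho (enn z) < 0
  obtain ⟨A, hA⟩ : ∃ A : ℝ, A = z.re ^ 2 := ⟨_, rfl⟩
  obtain ⟨B, hB⟩ : ∃ B : ℝ, B = z.im ^ 2 := ⟨_, rfl⟩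
  obtain ⟨e, he⟩ : ∃ e : ℝ, e = 1 - A - B := ⟨_, rfl⟩
  have hA0 : 0 ≤ A := hA ▸ sq_nonneg _
  have hB0 : 0 ≤ B := hB ▸ sq_nonneg _
  have he0 : 0 < e := by rw [he, hA, hB]; linarith
  have key : - rho (enn z) = (1/1) * (A^0 * B^0 * e^6) + (6/1) * (A^0 * B^1 * e^5) + (282479/20736) * (A^0 * B^2 * e^4) + (929989/62208) * (A^0 * B^3 * e^3) + (128204845/15925248) * (A^0 * B^4 * e^2) + (125093021/71663616) * (A^0 * B^5 * e^1) + (4753327/214990848) * (A^0 * B^6 * e^0) + (6/1) * (A^1 * B^0 * e^5) + (30/1) * (A^1 * B^1 * e^4) + (1101355/20736) * (A^1 * B^2 * e^3) + (18173707/442368) * (A^1 * B^3 * e^2) + (100900529/7962624) * (A^1 * B^4 * e^1) + (50605933/71663616) * (A^1 * B^5 * e^0) + (282479/20736) * (A^2 * B^0 * e^4) + (1101355/20736) * (A^2 * B^1 * e^3) + (6305431/98304) * (A^2 * B^2 * e^2) + (33900079/1327104) * (A^2 * B^3 * e^1) + (6309239/7962624) * (A^2 * B^4 * e^0) + (929989/62208) * (A^3 * B^0 * e^3) + (18173707/442368)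 * (A^3 * B^1 * e^2) + (33900079/1327104) * (A^3 * B^2 * e^1) + (997807/3981312) * (A^3 * B^3 * e^0) + (128204845/15925248) * (A^4 * B^0 * e^2) + (100900529/7962624) * (A^4 * B^1 * e^1) + (6309239/7962624) * (A^4 * B^2 * e^0) + (125093021/71663616) * (A^5 * B^0 * e^1) + (50605933/71663616) * (A^5 * B^1 * e^0) + (4753327/214990848) * (A^6 * B^0 * e^0) := by
    have e1 : rho (enn z) = (169 / 144) ^ 2 * (A ^ 2 * (1 - A / 12 + B / 4) ^ 4
        + B ^ 2 * (1 + A / 4 - B / 12) ^ 4 + (A - B) ^ 4 / 256) - 1 := by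
      rw [hA, hB]
      simp only [rho, enn, cub]
      simp
      ring
    rw [e1, he]
    ring
  have hpos : 0 < - rho (enn z) := by
    rw [key]
    have t : 0 < (1 / 1 : ℝ) * (A ^ 0 * B ^ 0 * e ^ 6) := by positivity
    have hAn : ∀ i j k : ℕ, 0 ≤ A ^ i * B ^ j * e ^ k := fun i j k => by positivity
    positivity
  linarith

end Pool.Agent.Lib.MP_a50f86_an
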