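import Mathlib

open Complex Metric Set

namespace Pool.Agent.Lib.MP_a50f86_an

/-- cubic polynomials in the real and imaginary part -/
noncomputable def cub (c00 c10 c01 c20 c11 c02 c30 c21 c12 c03 : ℝ) (w : ℂ) : ℝ :=
  c00 + c10 * w.re + c01 * w.im + c20 * w.re ^ 2 + c11 * (w.re * w.im) + c02 * w.im ^ 2
    + c30 * w.re ^ 3 + c21 * (w.re ^ 2 * w.im) + c12 * (w.re * w.im ^ 2) + c03 * w.im ^ 3

theorem hasFDerivAt_cub (c00 c10 c01 c20 c11 c02 c30 c21 c12 c03 : ℝ) (z : ℂ) :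
    HasFDerivAt (cub c00 c10 c01 c20 c11 c02 c30 c21 c12 c03)
      ((c10 + 2 * c20 * z.re + c11 * z.im + 3 * c30 * z.re ^ 2 + 2 * c21 * (z.re * z.im)
          + c12 * z.im ^ 2) • reCLM
        + (c01 + c11 * z.re + 2 * c02 * z.im + c21 * z.re ^ 2 + 2 * c12 * (z.re * z.im)
          + 3 * c03 * z.im ^ 2) • imCLM) z := by
  have h1 : HasFDerivAt (fun w : ℂ => w.re) reCLM z := reCLM.hasFDerivAt
  have h2 : HasFDerivAt (fun w : ℂ => w.im) imCLM z := imCLM.hasFDerivAt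
  have a1 := (h1.const_mul c10).const_add c00
  have a2 := h2.const_mul c01
  have a3 := (h1.pow 2).const_mul c20
  have a4 := (h1.mul h2).const_mul c11
  have a5 := (h2.pow 2).const_mul c02
  have a6 := (h1.pow 3).const_mul c30
  have a7 := ((h1.pow 2).mul h2).const_mul c21
  have a8 := (h1.mul (h2.pow 2)).const_mul c12
  have a9 := (h2.pow 3).const_mul c03
  have := (((((((a1.add a2).add a3).add a4).add a5).add a6).add a7).add a8).add a9
  refine this.congr_fderiv ?_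
  ext <;> simp
  ring

theorem fderiv_cub (c00 c10 c01 c20 c11 c02 c30 c21 c12 c03 : ℝ) (z v : ℂ) :
    fderiv ℝ (cub c00 c10 c01 c20 c11 c02 c30 c21 c12 c03) z v =
      (c10 + 2 * c20 * z.re + c11 * z.im + 3 * c30 * z.re ^ 2 + 2 * c21 * (z.re * z.im)
          + c12 * z.im ^ 2) * v.re
        + (c01 + c11 * z.re + 2 * c02 * z.im + c21 * z.re ^ 2 + 2 * c12 * (z.re * z.im)
          + 3 * c03 * z.im ^ 2) * v.im := by
  rw [(hasFDerivAt_cub c00 c10 c01 c20 c11 c02 c30 c21 c12 c03 z).fderiv]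
  simp

theorem contDiff_cub (c00 c10 c01 c20 c11 c02 c30 c21 c12 c03 : ℝ) :
    ContDiff ℝ 2 (cub c00 c10 c01 c20 c11 c02 c30 c21 c12 c03) := by
  have h1 : ContDiff ℝ 2 (fun w : ℂ => w.re) := reCLM.contDiff
  have h2 : ContDiff ℝ 2 (fun w : ℂ => w.im) := imCLM.contDiff
  unfold cub
  fun_prop

/-- The Enneper disc. -/
noncomputable def enn (z : ℂ) : EuclideanSpace ℝ (Fin 3) :=
  !₂[cub 0 (13 / 12) 0 0 0 0 (-13 / 144) 0 (13 / 48) 0 z,
    cub 0 0 (13 / 12) 0 0 0 0 (13 / 48) 0 (-13 / 144) z,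
    cub 0 0 0 (13 / 24) 0 (-13 / 24) 0 0 0 0 z]

/-- Its first real partial derivative. -/
noncomputable def enn1 (z : ℂ) : EuclideanSpace ℝ (Fin 3) :=
  !₂[cub (13 / 12) 0 0 (-13 / 48) 0 (13 / 48) 0 0 0 0 z,
    cub 0 0 0 0 (13 / 24) 0 0 0 0 0 z,
    cub 0 (13 / 12) 0 0 0 0 0 0 0 0 z]

/-- Its second real partial derivative. -/
noncomputable def enn2 (z : ℂ) : EuclideanSpace ℝ (Fin 3) :=
  !₂[cub 0 0 0 0 (13 / 24) 0 0 0 0 0 z,
    cub (13 / 12) 0 0 (13 / 48) 0 (-13 / 48) 0 0 0 0 z,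
    cub 0 0 (-13 / 12) 0 0 0 0 0 0 0 z]

theorem contDiff_enn : ContDiff ℝ 2 enn := by
  rw [contDiff_euclidean]
  intro i
  fin_cases i
  · exact contDiff_cub ..
  · exact contDiff_cub ..
  · exact contDiff_cub ..

theorem contDiff_enn1 : ContDiff ℝ 2 enn1 := by
  rw [contDiff_euclidean]
  intro i
  fin_cases i
  · exact contDiff_cub ..
  · exact contDiff_cub ..
  · exact contDiff_cub ..

theorem contDiff_enn2 : ContDiff ℝ 2 enn2 := by
  rw [contDiff_euclidean]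
  intro i
  fin_cases i
  · exact contDiff_cub ..
  · exact contDiff_cub ..
  · exact contDiff_cub ..

/-- components of the derivative -/
theorem fderiv_comp_apply {f : ℂ → EuclideanSpace ℝ (Fin 3)} {z : ℂ}
    (hf : DifferentiableAt ℝ f z) (v : ℂ) (i : Fin 3) :
    (fderiv ℝ f z v) i = fderiv ℝ (fun w => f w i) z v := by
  have h := (EuclideanSpace.proj (𝕜 := ℝ) i).hasFDerivAt.comp z hf.hasFDerivAt
  have h2 : HasFDerivAt (fun w => f w i) ((EuclideanSpace.proj (𝕜 := ℝ) i).comp (fderiv ℝ f z)) z := h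
  rw [h2.fderiv]
  rfl

theorem fderiv_enn_one (z : ℂ) : fderiv ℝ enn z 1 = enn1 z := by
  have hd : DifferentiableAt ℝ enn z := (contDiff_enn.differentiable (by norm_num)) z
  ext i
  rw [fderiv_comp_apply hd]
  fin_cases i
  · refine (fderiv_cub 0 (13 / 12) 0 0 0 0 (-13 / 144) 0 (13 / 48) 0 z 1).trans ?_
    simp only [enn1, cub, one_re, one_im]
    simp
    ring_nf
    simp
  · refine (fderiv_cub 0 0 (13 / 12) 0 0 0 0 (13 / 48) 0 (-13 / 144) z 1).trans ?_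
    simp only [enn1, cub, one_re, one_im]
    simp
    ring_nf
    simp
  · refine (fderiv_cub 0 0 0 (13 / 24) 0 (-13 / 24) 0 0 0 0 z 1).trans ?_
    simp only [enn1, cub, one_re, one_im]
    simp
    ring_nf
    simp

theorem fderiv_enn_I (z : ℂ) : fderiv ℝ enn z I = enn2 z := by
  have hd : DifferentiableAt ℝ enn z := (contDiff_enn.differentiable (by norm_num)) z
  ext i
  rw [fderiv_comp_apply hd]
  fin_cases i
  · refine (fderiv_cub 0 (13 / 12) 0 0 0 0 (-13 / 144) 0 (13 / 48) 0 z I).trans ?_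
    simp only [enn2, cub, I_re, I_im]
    simp
    ring_nf
    simp
  · refine (fderiv_cub 0 0 (13 / 12) 0 0 0 0 (13 / 48) 0 (-13 / 144) z I).trans ?_
    simp only [enn2, cub, I_re, I_im]
    simp
    ring_nf
    simp
  · refine (fderiv_cub 0 0 0 (13 / 24) 0 (-13 / 24) 0 0 0 0 z I).trans ?_
    simp only [enn2, cub, I_re, I_im]
    simp
    ring_nf
    simp

theorem enn_harm (z : ℂ) :
    fderiv ℝ (fun w => fderiv ℝ enn w 1) z 1 + fderiv ℝ (fun w => fderiv ℝ enn w I) z I = 0 := by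
  have e1 : (fun w => fderiv ℝ enn w 1) = enn1 := funext fderiv_enn_one
  have e2 : (fun w => fderiv ℝ enn w I) = enn2 := funext fderiv_enn_I
  rw [e1, e2]
  have hd1 : DifferentiableAt ℝ enn1 z := (contDiff_enn1.differentiable (by norm_num)) z
  have hd2 : DifferentiableAt ℝ enn2 z := (contDiff_enn2.differentiable (by norm_num)) z
  ext i
  rw [PiLp.add_apply, fderiv_comp_apply hd1, fderiv_comp_apply hd2]
  fin_cases i
  · refine (congrArg₂ (· + ·) (fderiv_cub (13 / 12) 0 0 (-13 / 48) 0 (13 / 48) 0 0 0 0 z 1)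
      (fderiv_cub 0 0 0 0 (13 / 24) 0 0 0 0 0 z I)).trans ?_
    simp
    ring
  · refine (congrArg₂ (· + ·) (fderiv_cub 0 0 0 0 (13 / 24) 0 0 0 0 0 z 1)
      (fderiv_cub (13 / 12) 0 0 (13 / 48) 0 (-13 / 48) 0 0 0 0 z I)).trans ?_
    simp
    ring
  · refine (congrArg₂ (· + ·) (fderiv_cub 0 (13 / 12) 0 0 0 0 0 0 0 0 z 1)
      (fderiv_cub 0 0 (-13 / 12) 0 0 0 0 0 0 0 z I)).trans ?_
    simp
    ring

theorem enn_conf (z : ℂ) : ‖fderiv ℝ enn z 1‖ = ‖fderiv ℝ enn z I‖ ∧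
    inner ℝ (fderiv ℝ enn z 1) (fderiv ℝ enn z I) = 0 := by
  rw [fderiv_enn_one, fderiv_enn_I]
  constructor
  · rw [EuclideanSpace.norm_eq, EuclideanSpace.norm_eq]
    congr 1
    simp [Fin.sum_univ_three, enn1, enn2, cub]
    ring
  · simp [Fin.sum_univ_three, enn1, enn2, cub, PiLp.inner_apply]
    ring

end Pool.Agent.Lib.MP_a50f86_an
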